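import Pool.Agent.W682.TW.Stm

/-!
# TW-FRZ: the frozen statement from the data
-/

set_option autoImplicit false

open scoped BigOperators
open MeasureTheory

namespace Pool.Agent.W597.TW.Frz

open Pool.Agent.W682.TW

/-- the matrix of a bilinear form -/
noncomputable def LL {m : ℕ} (B : Mt m →ₗ[ℝ] Mt m →ₗ[ℝ] ℝ) : Mt m →ₗ[ℝ] Mt m where
  toFun A := Matrix.of fun i j => B A (Matrix.single i j 1)
  map_add' A C := by
    ext i j
    simp
  map_smul' c A := by
    ext i j
    simp

theorem tr {m : ℕ} (B : Mt m →ₗ[ℝ] Mt m →ₗ[ℝ] ℝ) (A C : Mt m) :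
    ∑ i, ∑ j, C i j * (LL B A) i j = B A C := by
  conv_rhs => rw [Matrix.matrix_eq_sum_single C]
  rw [map_sum]
  refine Finset.sum_congr rfl fun i _ => ?_
  rw [map_sum]
  refine Finset.sum_congr rfl fun j _ => ?_
  have : Matrix.single i j (C i j) = (C i j) • (Matrix.single i j (1 : ℝ)) := by
    rw [Matrix.smul_single]
    simp
  rw [this, map_smul]
  simp [LL]

theorem tr0 {m : ℕ} (A C : Mt m) :
    Matrix.trace (A * C.transpose) = ∑ i, ∑ j, A i j * C i j := by
  simp [Matrix.trace, Matrix.mul_apply]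

theorem pq {m : ℕ} {Q : Mt m → ℝ} (h : IsPQ Q) :
    ∃ (L : Mt m →ₗ[ℝ] Mt m) (F₁ : Mt m) (k : ℝ),
      (∀ A B : Mt m, Matrix.trace (A * (L B).transpose) = Matrix.trace (L A * B.transpose)) ∧
      (∀ A : Mt m, A ≠ 0 → 0 < Matrix.trace (A * (L A).transpose)) ∧
      ∀ F, Q F = Matrix.trace ((F - F₁) * (L (F - F₁)).transpose) + k := by
  obtain ⟨B, l, c₀, hs, hp, hQ⟩ := h
  have hinj : Function.Injective B := by
    rw [injective_iff_map_eq_zero]
    intro X hX
    by_contra hne
    have := hp X hne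
    rw [hX] at this
    simp at this
  have hsurj : Function.Surjective B :=
    (LinearMap.injective_iff_surjective_of_finrank_eq_finrank
      (Subspace.dual_finrank_eq (K := ℝ) (V := Mt m)).symm).1 hinj
  obtain ⟨F₁, hF₁⟩ := hsurj (-(1 / 2 : ℝ) • l)
  refine ⟨LL B, F₁, c₀ - B F₁ F₁, ?_, ?_, ?_⟩
  · intro A C
    rw [tr0, tr0, tr, hs, ← tr]
    exact Finset.sum_congr rfl fun i _ => Finset.sum_congr rfl fun j _ => mul_comm _ _
  · intro A hA
    rw [tr0, tr]
    exact hp A hA
  · intro F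
    rw [tr0, tr, hQ]
    have e1 : B F₁ F = -(1 / 2) * l F := by
      rw [hF₁]
      simp
    simp only [map_sub, LinearMap.sub_apply]
    rw [hs F F₁, e1]
    ring

theorem vol : (volume : Measure (Fin 2 → ℝ)).real cube = 1 := by
  unfold cube
  rw [measureReal_def, volume_pi_pi]
  simp

theorem low (f : (Fin 2 → ℝ) → ℝ) (c : ℝ) (h : ∀ x, c ≤ f x) :
    min c 0 ≤ ∫ x in cube, f x := by
  by_cases hf : IntegrableOn f cube
  · have hm : MeasurableSet cube := MeasurableSet.univ_pi fun _ => measurableSet_Icc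
    have hv : volume cube ≠ ⊤ := by
      intro ht
      have := vol
      rw [measureReal_def, ht] at this
      simp at this
    have : ∫ x in cube, c ≤ ∫ x in cube, f x :=
      setIntegral_mono_on (integrableOn_const hv) hf hm fun x _ => h x
    rw [setIntegral_const, vol, one_smul] at this
    exact le_trans (min_le_left _ _) this
  · have : ∫ x in cube, f x = 0 := integral_undef hf
    rw [this]
    exact min_le_right _ _

theorem main : S_FRZ := by
  intro m Q₀ Q₁ g F u h0 h1 hR hg hu hlt hall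
  obtain ⟨L₁, F₁, k₁, hs1, hp1, hQ1⟩ := pq h0
  obtain ⟨L₂, F₂, k₂, hs2, hp2, hQ2⟩ := pq h1
  have key := hall m L₁ L₂ F₁ F₂ k₁ k₂ hs1 hs2 hp1 hp2 F
  have hn1 : ∀ A : Mt m, 0 ≤ Matrix.trace (A * (L₁ A).transpose) := by
    intro A
    by_cases hA : A = 0
    · subst hA
      simp
    · exact (hp1 A hA).le
  have hn2 : ∀ A : Mt m, 0 ≤ Matrix.trace (A * (L₂ A).transpose) := by
    intro A
    by_cases hA : A = 0
    · subst hA
      simp
    · exact (hp2 A hA).le
  have hle1 := csInf_le (s := { q : ℝ | ∃ u : (Fin 2 → ℝ) → (Fin m → ℝ),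
            ContDiff ℝ ((⊤ : ℕ∞) : WithTop ℕ∞) u ∧
            (∀ (x : Fin 2 → ℝ) (z : Fin 2 → ℤ), u (x + fun i => (z i : ℝ)) = u x) ∧
            q = ∫ x in Set.univ.pi (fun _ : Fin 2 => Set.Icc (0 : ℝ) 1),
                (fun H : Matrix (Fin 2) (Fin m) ℝ =>
                    min (Matrix.trace ((H - F₁) * (L₁ (H - F₁)).transpose) + k₁)
                        (Matrix.trace ((H - F₂) * (L₂ (H - F₂)).transpose) + k₂))
                  (F + Matrix.of (fun (i : Fin 2) (α : Fin m) =>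
                      fderiv ℝ u x (Pi.single i (1 : ℝ)) α)) })
    (a := ∫ x in cube, min (Q₀ (F + gr u x)) (Q₁ (F + gr u x))) ?_ ?_
  · have hle2 := le_csSup (s := { r : ℝ | ∃ g : Matrix (Fin 2) (Fin m) ℝ → ℝ,
            (∀ (A : Matrix (Fin 2) (Fin m) ℝ) (a : Fin 2 → ℝ) (b : Fin m → ℝ),
                ConvexOn ℝ Set.univ (fun t : ℝ => g (A + t • Matrix.vecMulVec a b))) ∧
            (∀ H : Matrix (Fin 2) (Fin m) ℝ,
                g H ≤ min (Matrix.trace ((H - F₁) * (L₁ (H - F₁)).transpose) + k₁)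
                          (Matrix.trace ((H - F₂) * (L₂ (H - F₂)).transpose) + k₂)) ∧
            r = g F }) (a := g F) ?_ ?_
    · rw [key] at hle1
      exact absurd (lt_of_le_of_lt (hle2.trans hle1) hlt) (lt_irrefl _)
    · refine ⟨min (Matrix.trace ((F - F₁) * (L₁ (F - F₁)).transpose) + k₁)
                          (Matrix.trace ((F - F₂) * (L₂ (F - F₂)).transpose) + k₂), ?_⟩
      rintro r ⟨g', -, hg', rfl⟩
      exact hg' F
    · refine ⟨g, hR, fun H => ?_, rfl⟩
      rw [← hQ1, ← hQ2]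
      exact hg H
  · refine ⟨min (min k₁ k₂) 0, ?_⟩
    rintro q ⟨v, -, -, rfl⟩
    refine low _ _ fun x => ?_
    refine le_min ?_ ?_
    · refine le_trans (min_le_left _ _) ?_
      exact le_add_of_nonneg_left (hn1 _)
    · refine le_trans (min_le_right _ _) ?_
      exact le_add_of_nonneg_left (hn2 _)
  · refine ⟨u, hu.1, hu.2, ?_⟩
    unfold cube
    congr 1
    funext x
    rw [hQ1, hQ2]
    rfl

end Pool.Agent.W597.TW.Frz
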